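import Pool.Agent.Lib.MP_f4ebb7_co.Final

/-!
# Ryser's conjecture holds for almost all orders

The orders `n ≤ x` of nontrivial difference sets with `gcd(v, n) > 1` in finite abelian groups (in particular in
cyclic groups) number at most `C x / √(log x)`.
-/

set_option autoImplicit false

namespace Pool.Agent.Lib.MP_f4ebb7_co.Old.AlmostAllOrders

/-- `D` is a difference set with parameter `l` in the finite abelian group `G` -/
def IsDiffSet (G : Type) [AddCommGroup G] [DecidableEq G] (D : Finset G) (l : ℕ) : Prop :=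
  ∀ g : G, g ≠ 0 → ((D ×ˢ D).filter (fun p => p.1 - p.2 = g)).card = l

/-- `n` is the order of a difference set in some finite abelian group `G` with `gcd(|G|, n) > 1` -/
def NoncoprimeOrder (n : ℕ) : Prop :=
  ∃ (G : Type) (_ : AddCommGroup G) (_ : Fintype G) (_ : DecidableEq G) (D : Finset G) (l : ℕ),
    IsDiffSet G D l ∧ D.card = n + l ∧ 1 < Nat.gcd (Fintype.card G) n

/-- The orders `2 ≤ n ≤ x` of difference sets in finite abelian groups `G` with `gcd(|G|, n) > 1` number at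
most `C x / √(log x)`. -/
theorem result : ∃ C : ℝ, ∀ x : ℕ, 2 ≤ x →
    (({n : ℕ | 2 ≤ n ∧ n ≤ x ∧ NoncoprimeOrder n}.ncard : ℕ) : ℝ) ≤ C * (x / Real.sqrt (Real.log x)) := by
  classical
  obtain ⟨C, hC⟩ := Pool.Agent.Lib.MP_f4ebb7_co.count_all
  refine ⟨C, fun x hx => le_trans ?_ (hC x hx)⟩
  have hsub : {n : ℕ | 2 ≤ n ∧ n ≤ x ∧ NoncoprimeOrder n} ⊆
      (((Finset.Icc 1 x).filter (fun n => IsSquare n ∨ ∃ p : ℕ, p.Prime ∧ p ≠ 2 ∧
        Pool.Agent.Lib.MP_f4ebb7_co.Cand p n) : Finset ℕ) : Set ℕ) := by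
    rintro n ⟨h1, h2, G, i1, i2, i3, D, l, hD, hk, hg⟩
    rw [Finset.mem_coe, Finset.mem_filter, Finset.mem_Icc]
    refine ⟨⟨by omega, h2⟩, ?_⟩
    rcases Pool.Agent.Lib.MP_f4ebb7_co.shape D l n hD hk (by omega) with h | ⟨p, hp, hp2, h3, h4⟩
    · exact Or.inl h
    · exact Or.inr ⟨p, hp, hp2, h3, h4⟩
  have h := Set.ncard_le_ncard hsub (Finset.finite_toSet _)
  rw [Set.ncard_coe_finset] at h
  exact_mod_cast h

end Pool.Agent.Lib.MP_f4ebb7_co.Old.AlmostAllOrders
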