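import Pool.Agent.Lib.MP_f4ebb7_co.RY.MainA

/-!
# Ryser's conjecture for all orders `n = p^c m`, `m ≥ 2` squarefree, `p > m² + m + 1`

More generally: if the order `n` of a difference set in a finite abelian group `G` is `p^c u² m` with `p ∤ m` and
every prime factor of `u` self-conjugate modulo `p`, and if `p > m² + m + 1` and `m` is not a square (or, more
precisely, no `s` with `0 < s < p`, `s² ≡ m mod p` has `s (p - s) ≤ m (p - 1)`), then `p` does not divide `|G|`.
-/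

set_option autoImplicit false

namespace Pool.Agent.Lib.MP_f4ebb7_co.Old.LargePrimeOrders

/-- `D` is a difference set with parameter `l` in the finite abelian group `G` -/
def IsDiffSet (G : Type) [AddCommGroup G] [DecidableEq G] (D : Finset G) (l : ℕ) : Prop :=
  ∀ g : G, g ≠ 0 → ((D ×ˢ D).filter (fun p => p.1 - p.2 = g)).card = l

/-- the prime `p` is large against the non-square `m`, or at least every `s`, `0 < s < p`, `s² ≡ m mod p`, satisfies
`s (p - s) > m (p - 1)` -/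
def Good (p m : ℕ) : Prop :=
  (m ^ 2 + m + 1 < p ∧ ¬ IsSquare m) ∨
    ∀ s : ℕ, 0 < s → s < p → s ^ 2 ≡ m [MOD p] → m * (p - 1) < s * (p - s)

theorem result (p c u m : ℕ) (hp : p.Prime) (hpm : ¬ p ∣ m) (hg : Good p m)
    (hu : ∀ q : ℕ, q.Prime → q ∣ u → ∃ j : ℕ, p ∣ q ^ j + 1)
    (G : Type) [AddCommGroup G] [Fintype G] [DecidableEq G] (D : Finset G) (l : ℕ)
    (hD : IsDiffSet G D l) (hk : D.card = p ^ c * (u ^ 2 * m) + l) (hn : 0 < p ^ c * (u ^ 2 * m)) :
    ¬ p ∣ Fintype.card G ∧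
      (u = 1 → Squarefree m → Nat.gcd (Fintype.card G) (p ^ c * (u ^ 2 * m)) = 1) := by
  have hp2 : p ≠ 2 := by
    rintro rfl
    rcases hg with ⟨h1, -⟩ | h1
    · have h2 : m = 0 := by nlinarith
      exact hpm (by rw [h2]; exact dvd_zero 2)
    · have h2 : 1 ^ 2 ≡ m [MOD 2] := by
        unfold Nat.ModEq
        omega
      have h3 := h1 1 (by norm_num) (by norm_num) h2
      have h4 : m = 0 := by omega
      exact hpm (by rw [h4]; exact dvd_zero 2)
  have hmain : ¬ p ∣ Fintype.card G := by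
    intro hpG
    obtain ⟨w, hw, hwl⟩ := Pool.RY.shape_of p c u m
    obtain ⟨s, h1, h2, h3, h4⟩ := Pool.RY.main_a hp hp2 hn hw hpm (by
      intro q hq hqw
      rcases hwl q hq hqw with h | h
      · exact Or.inl ((Nat.prime_dvd_prime_iff_eq hq hp).1 h)
      · exact Or.inr (hu q hq h)) D l hD hk hpG
    rcases hg with ⟨h5, h6⟩ | h5
    · exact h6 (Pool.RY.sq_of h5 h1 h2 h3 h4)
    · exact absurd (h5 s h1 h2 h3) (not_lt.2 h4)
  refine ⟨hmain, fun hu1 hsq => ?_⟩
  by_contra hgcd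
  obtain ⟨q, hq, hqd⟩ := Nat.exists_prime_and_dvd hgcd
  have hq1 : q ∣ Fintype.card G := hqd.trans (Nat.gcd_dvd_left _ _)
  have hq2 : q ∣ p ^ c * (u ^ 2 * m) := hqd.trans (Nat.gcd_dvd_right _ _)
  have hqp : q ≠ p := fun h => hmain (h ▸ hq1)
  have h1 := Pool.RY.sq_dvd D l _ hD hk hq hq1 hq2
  have hcop : Nat.Coprime (q ^ 2) (p ^ c) := Nat.Coprime.pow 2 c ((Nat.coprime_primes hq hp).2 hqp)
  have h2 : q ^ 2 ∣ u ^ 2 * m := hcop.dvd_of_dvd_mul_left h1
  rw [hu1, one_pow, one_mul, sq] at h2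
  exact hq.one_lt.ne' (Nat.isUnit_iff.1 (hsq q h2))

end Pool.Agent.Lib.MP_f4ebb7_co.Old.LargePrimeOrders
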